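import Pool.Agent.helper7.UL.Spec

/-!
# ul:CVL (MP_62ffdf_lc): the accumulators
-/

set_option autoImplicit false

namespace Pool.Agent.UL

theorem CVL_step (β v : ℕ) (acc : ℕ × ℕ) (c : Bool) (hc : v.testBit β = true → c = true) :
    cnt β (acc.1 ||| v, acc.2 ||| (acc.1 &&& v)) ≤ cnt β acc + (if c = true then 1 else 0) := by
  unfold cnt
  simp only [Nat.testBit_or, Nat.testBit_and]
  rcases h1 : acc.1.testBit β <;> rcases h2 : acc.2.testBit β <;> rcases h3 : v.testBit β <;>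
    simp [h3] at hc ⊢ <;> simp [hc]

theorem CVL_cov (M D ε β : ℕ) (s : ℕ) :
    ((D >>> (s + ε)) &&& M).testBit β = (D.testBit (β + s + ε) && M.testBit β) := by
  rw [Nat.testBit_and, Nat.testBit_shiftRight]
  have : s + ε + β = β + s + ε := by omega
  rw [this]

theorem CVL_self (M D ε β : ℕ) (s k : ℕ) :
    ((((D >>> (s + ε)) &&& M) >>> k) <<< k).testBit β =
      (decide (k ≤ β) && (D.testBit (β + s + ε) && M.testBit β)) := by
  rw [Nat.testBit_shiftLeft, Nat.testBit_shiftRight]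
  by_cases h : k ≤ β
  · have : k + (β - k) = β := by omega
    rw [this, CVL_cov]
  · simp [h]

theorem CVL : CVL_stmt := by
  intro R M D ε β ss
  induction ss with
  | nil =>
    intro acc
    simp [covL, selfL]
  | cons s t ih =>
    intro acc
    refine ⟨?_, ?_, ?_⟩
    · have h1 := (ih (acc.1 ||| ((D >>> (s + ε)) &&& M), acc.2 ||| (acc.1 &&& ((D >>> (s + ε)) &&& M)))).1
      have h2 := CVL_step β ((D >>> (s + ε)) &&& M) acc (D.testBit (β + s + ε)) (by
        rw [CVL_cov]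
        intro h
        rw [Bool.and_eq_true] at h
        exact h.1)
      rw [List.countP_cons]
      show cnt β (covL M D ε t (acc.1 ||| ((D >>> (s + ε)) &&& M),
        acc.2 ||| (acc.1 &&& ((D >>> (s + ε)) &&& M)))) ≤ _
      omega
    · have h1 := (ih (acc.1 ||| ((D >>> (s + ε)) &&& M), acc.2 ||| (acc.1 &&& ((D >>> (s + ε)) &&& M)))).2.1
      show (covL M D ε t (acc.1 ||| ((D >>> (s + ε)) &&& M),
        acc.2 ||| (acc.1 &&& ((D >>> (s + ε)) &&& M)))).1.testBit β = true ↔ _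
      rw [h1]
      show (acc.1 ||| ((D >>> (s + ε)) &&& M)).testBit β = true ∨ _ ↔ _
      rw [Nat.testBit_or, CVL_cov, Bool.or_eq_true, Bool.and_eq_true]
      simp only [List.mem_cons, exists_eq_or_imp]
      tauto
    · have h1 := (ih (acc.1 ||| ((((D >>> (s + ε)) &&& M) >>> (2 * (R + 3 - s) + 2 - ε)) <<< (2 * (R + 3 - s) + 2 - ε)),
        acc.2 ||| (acc.1 &&& ((((D >>> (s + ε)) &&& M) >>> (2 * (R + 3 - s) + 2 - ε)) <<< (2 * (R + 3 - s) + 2 - ε))))).2.2
      have h2 := CVL_step β ((((D >>> (s + ε)) &&& M) >>> (2 * (R + 3 - s) + 2 - ε)) <<< (2 * (R + 3 - s) + 2 - ε)) acc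
        (D.testBit (β + s + ε) && decide (2 * (R + 3 - s) + 2 - ε ≤ β)) (by
        rw [CVL_self]
        intro h
        rw [Bool.and_eq_true, Bool.and_eq_true] at h
        rw [Bool.and_eq_true]
        exact ⟨h.2.1, h.1⟩)
      rw [List.countP_cons]
      show cnt β (selfL R M D ε t (acc.1 ||| ((((D >>> (s + ε)) &&& M) >>> (2 * (R + 3 - s) + 2 - ε)) <<< (2 * (R + 3 - s) + 2 - ε)),
        acc.2 ||| (acc.1 &&& ((((D >>> (s + ε)) &&& M) >>> (2 * (R + 3 - s) + 2 - ε)) <<< (2 * (R + 3 - s) + 2 - ε))))) ≤ _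
      omega

end Pool.Agent.UL
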